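import Mathlib
import Pool.Agent.Helper123.PLP.R3

namespace Pool.Agent.Results.MP_9f1016_co.ExplicitLower

/-- For every finite set of points in 3-space (in particular every admissible one), with `l` the
number of determined lines and `p` the number of determined planes, `|S| * p ≤ 9240 * l ^ 2`. -/
theorem result :
    ∀ S : Finset (EuclideanSpace ℝ (Fin 3)),
      S.card *
          {P : AffineSubspace ℝ (EuclideanSpace ℝ (Fin 3)) |
            ∃ x ∈ S, ∃ y ∈ S, ∃ z ∈ S,
              ¬ Collinear ℝ ({x, y, z} : Set (EuclideanSpace ℝ (Fin 3))) ∧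
              P = affineSpan ℝ ({x, y, z} : Set (EuclideanSpace ℝ (Fin 3)))}.ncard
        ≤ 9240 *
          ({L : AffineSubspace ℝ (EuclideanSpace ℝ (Fin 3)) |
            ∃ x ∈ S, ∃ y ∈ S, x ≠ y ∧
              L = affineSpan ℝ ({x, y} : Set (EuclideanSpace ℝ (Fin 3)))}.ncard) ^ 2 :=
  fun S => Pool.Agent.Helper123.PLP.r3_main S

end Pool.Agent.Results.MP_9f1016_co.ExplicitLower
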